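import Mathlib

/-!
# Local rings with a pairing of the elements of the maximal ideal

Let `S` be a local ring and `X ^ 2 - b X - a` a polynomial without roots in the residue field. The
ring `{x + y ω : x ∈ S, y ∈ m}`, `ω ^ 2 = a + b ω`, is local, and multiplication by `ω` acts on
its maximal ideal.
-/

set_option autoImplicit false

universe u

namespace Pool.Agent.KS6_79.IC

open IsLocalRing

/-- integral extensions preserve the Krull dimension -/
theorem dim_eq {R S : Type*} [CommRing R] [CommRing S] [Algebra R S] [Algebra.IsIntegral R S]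
    (hinj : Function.Injective (algebraMap R S)) : ringKrullDim S = ringKrullDim R := by
  apply le_antisymm
  · unfold ringKrullDim
    apply Order.krullDim_le_of_strictMono (PrimeSpectrum.comap (algebraMap R S))
    intro p q hpq
    have := Ideal.IsIntegral.comap_lt_comap (R := R) (I := p.asIdeal) (J := q.asIdeal) hpq
    exact this
  · unfold ringKrullDim
    unfold Order.krullDim
    apply iSup_le
    intro l
    have : ∃ P : Ideal S, P.IsPrime ∧ P.comap (algebraMap R S) = l.head.asIdeal := by
      obtain ⟨Q, -, hQ, hQ'⟩ := Ideal.exists_ideal_over_prime_of_isIntegral (S := S) l.head.asIdeal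
        (⊥ : Ideal S) (by
          rw [← RingHom.ker_eq_comap_bot, (RingHom.injective_iff_ker_eq_bot _).1 hinj]
          exact bot_le)
      exact ⟨Q, hQ, hQ'⟩
    obtain ⟨P, hP, hP'⟩ := this
    have := hP
    have : P.LiesOver (RelSeries.head l).asIdeal := ⟨hP'.symm⟩
    obtain ⟨L, hL, -, -⟩ := Ideal.exists_ltSeries_of_hasGoingUp (S := S) l P
    rw [← hL]
    exact le_iSup (fun p : LTSeries (PrimeSpectrum S) => (p.length : WithBot ℕ∞)) L

section ring
variable (S : Type u) [CommRing S] [IsLocalRing S] (a b : S)

/-- `{x + y ω : x ∈ S, y ∈ m}` inside `S[ω]`, `ω ^ 2 = a + b ω` -/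
def ring : Subalgebra S (QuadraticAlgebra S a b) where
  carrier := {z | z.im ∈ maximalIdeal S}
  mul_mem' := by
    intro z w hz hw
    simp only [Set.mem_ofPred_eq] at hz hw ⊢
    rw [QuadraticAlgebra.im_mul]
    have h1 := Ideal.mul_mem_left (maximalIdeal S) z.re hw
    have h2 := Ideal.mul_mem_right w.re (maximalIdeal S) hz
    have h3 := Ideal.mul_mem_left (maximalIdeal S) (b * z.im) hw
    exact Ideal.add_mem _ (Ideal.add_mem _ h1 h2) h3
  add_mem' := by
    intro z w hz hw
    simp only [Set.mem_ofPred_eq] at hz hw ⊢
    rw [QuadraticAlgebra.im_add]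
    exact Ideal.add_mem _ hz hw
  algebraMap_mem' := by
    intro r
    simp only [Set.mem_ofPred_eq]
    rw [QuadraticAlgebra.algebraMap_im]
    exact Ideal.zero_mem _

variable {S a b}

theorem mem_ring {z : QuadraticAlgebra S a b} : z ∈ ring S a b ↔ z.im ∈ maximalIdeal S := Iff.rfl

theorem isUnit_of_re (z : ring S a b) (h : IsUnit z.1.re) : IsUnit z := by
  have hn : IsUnit (z.1.re * z.1.re + b * z.1.re * z.1.im - a * z.1.im * z.1.im) := by
    by_contra hc
    have h1 : z.1.re * z.1.re + b * z.1.re * z.1.im - a * z.1.im * z.1.im ∈ maximalIdeal S :=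
      (mem_maximalIdeal _).2 hc
    have h2 : b * z.1.re * z.1.im ∈ maximalIdeal S := Ideal.mul_mem_left _ _ z.2
    have h3 : a * z.1.im * z.1.im ∈ maximalIdeal S := Ideal.mul_mem_left _ _ z.2
    have h4 : z.1.re * z.1.re ∈ maximalIdeal S := by
      have := Ideal.add_mem _ (Ideal.sub_mem _ h1 h2) h3
      have e : z.1.re * z.1.re = z.1.re * z.1.re + b * z.1.re * z.1.im - a * z.1.im * z.1.im -
        b * z.1.re * z.1.im + a * z.1.im * z.1.im := by ring
      rwa [← e] at this
    exact (mem_maximalIdeal _).1 h4 (h.mul h)
  obtain ⟨u, hu⟩ := hn.exists_right_inv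
  refine IsUnit.of_mul_eq_one
    (⟨⟨(z.1.re + b * z.1.im) * u, -(z.1.im * u)⟩, ?_⟩ : ring S a b) ?_
  · rw [mem_ring]
    exact (Ideal.neg_mem_iff _).2 (Ideal.mul_mem_right _ _ z.2)
  · apply Subtype.ext
    apply QuadraticAlgebra.ext
    · simp only [MulMemClass.coe_mul, QuadraticAlgebra.re_mul, OneMemClass.coe_one,
        QuadraticAlgebra.re_one]
      linear_combination hu
    · simp only [MulMemClass.coe_mul, QuadraticAlgebra.im_mul, OneMemClass.coe_one,
        QuadraticAlgebra.im_one]
      ring

theorem isUnit_iff (z : ring S a b) : IsUnit z ↔ IsUnit z.1.re := by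
  refine ⟨fun h => ?_, isUnit_of_re z⟩
  obtain ⟨w, hw⟩ := h.exists_right_inv
  have h1 := congrArg (fun t : ring S a b => t.1.re) hw
  simp only [MulMemClass.coe_mul, QuadraticAlgebra.re_mul, OneMemClass.coe_one,
        QuadraticAlgebra.re_one] at h1
  by_contra hc
  have h2 : z.1.re ∈ maximalIdeal S := (mem_maximalIdeal _).2 hc
  have h3 : (1 : S) ∈ maximalIdeal S := by
    rw [← h1]
    apply Ideal.add_mem
    · exact Ideal.mul_mem_right _ _ h2
    · exact Ideal.mul_mem_left _ _ w.2
  exact (mem_maximalIdeal _).1 h3 isUnit_one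

instance : IsLocalRing (ring S a b) := by
  have : Nontrivial (ring S a b) := by
    refine ⟨0, 1, fun h => ?_⟩
    have h1 := congrArg (fun t : ring S a b => t.1.re) h
    simp only [ZeroMemClass.coe_zero, QuadraticAlgebra.re_zero, OneMemClass.coe_one,
      QuadraticAlgebra.re_one] at h1
    exact zero_ne_one h1
  refine IsLocalRing.of_nonunits_add ?_
  intro z w hz hw
  rw [mem_nonunits_iff, isUnit_iff] at hz hw ⊢
  have h1 : z.1.re ∈ maximalIdeal S := (mem_maximalIdeal _).2 hz
  have h2 : w.1.re ∈ maximalIdeal S := (mem_maximalIdeal _).2 hw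
  exact (mem_maximalIdeal _).1 (Ideal.add_mem _ h1 h2)

theorem mem_max (z : ring S a b) : z ∈ maximalIdeal (ring S a b) ↔ z.1.re ∈ maximalIdeal S := by
  rw [mem_maximalIdeal, mem_maximalIdeal, mem_nonunits_iff, mem_nonunits_iff, isUnit_iff]

open Classical in
/-- multiplication by `ω` on the maximal ideal -/
noncomputable def J (z : ring S a b) : ring S a b :=
  if h : z.1.re ∈ maximalIdeal S then ⟨⟨a * z.1.im, z.1.re + b * z.1.im⟩,
    Ideal.add_mem _ h (Ideal.mul_mem_left _ _ z.2)⟩ else 0

theorem J_val {z : ring S a b} (h : z ∈ maximalIdeal (ring S a b)) :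
    (J z).1 = ⟨a * z.1.im, z.1.re + b * z.1.im⟩ := by
  have h' := (mem_max z).1 h
  simp [J, h']

theorem J_mem {z : ring S a b} (h : z ∈ maximalIdeal (ring S a b)) :
    J z ∈ maximalIdeal (ring S a b) := by
  rw [mem_max, J_val h]
  exact Ideal.mul_mem_left _ _ z.2

theorem J_J {z : ring S a b} (h : z ∈ maximalIdeal (ring S a b)) :
    J (J z) = algebraMap S _ a * z + algebraMap S _ b * J z := by
  apply Subtype.ext
  rw [J_val (J_mem h), AddMemClass.coe_add, MulMemClass.coe_mul, MulMemClass.coe_mul, J_val h]
  apply QuadraticAlgebra.ext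
  · simp
    ring
  · simp

theorem J_add {z w : ring S a b} (hz : z ∈ maximalIdeal (ring S a b))
    (hw : w ∈ maximalIdeal (ring S a b)) : J (z + w) = J z + J w := by
  apply Subtype.ext
  rw [J_val (Ideal.add_mem _ hz hw), AddMemClass.coe_add, AddMemClass.coe_add, J_val hz, J_val hw]
  apply QuadraticAlgebra.ext
  · simp [mul_add]
  · simp only [QuadraticAlgebra.im_add, QuadraticAlgebra.re_add]
    ring

theorem J_mul (r : ring S a b) {z : ring S a b} (hz : z ∈ maximalIdeal (ring S a b)) :
    J (r * z) = r * J z := by
  apply Subtype.ext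
  rw [J_val (Ideal.mul_mem_left _ r hz), MulMemClass.coe_mul, MulMemClass.coe_mul, J_val hz]
  apply QuadraticAlgebra.ext
  · simp only [QuadraticAlgebra.re_mul, QuadraticAlgebra.im_mul]
    ring
  · simp only [QuadraticAlgebra.re_mul, QuadraticAlgebra.im_mul]
    ring

theorem unit_sq (h5 : ∀ r : S, IsUnit (r * r - b * r - a)) (r : ring S a b) :
    IsUnit (r * r - algebraMap S _ b * r - algebraMap S _ a) := by
  rw [isUnit_iff]
  by_contra hc
  have h1 : (r * r - algebraMap S _ b * r - algebraMap S _ a : ring S a b).1.re ∈
    maximalIdeal S := (mem_maximalIdeal _).2 hc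
  have e : (r * r - algebraMap S _ b * r - algebraMap S _ a : ring S a b).1.re =
      (r.1.re * r.1.re - b * r.1.re - a) + a * r.1.im * r.1.im := by
    simp
    ring
  rw [e] at h1
  have h2 : a * r.1.im * r.1.im ∈ maximalIdeal S := Ideal.mul_mem_left _ _ r.2
  have h3 := Ideal.sub_mem _ h1 h2
  rw [add_sub_cancel_right] at h3
  exact (mem_maximalIdeal _).1 h3 (h5 _)

instance [IsNoetherianRing S] : Module.Finite S (ring S a b) := by
  have : IsNoetherian S (Subalgebra.toSubmodule (ring S a b)) := inferInstance
  have h2 : Module.Finite S (Subalgebra.toSubmodule (ring S a b)) := inferInstance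
  exact h2

theorem noeth [IsNoetherianRing S] : IsNoetherianRing (ring S a b) :=
  IsNoetherianRing.of_finite S (ring S a b)

theorem inj : Function.Injective (algebraMap S (ring S a b)) := by
  intro x y hxy
  have := congrArg (fun t : ring S a b => t.1.re) hxy
  simpa using this

theorem dim [IsNoetherianRing S] : ringKrullDim (ring S a b) = ringKrullDim S := by
  have : Algebra.IsIntegral S (ring S a b) := Algebra.IsIntegral.of_finite S (ring S a b)
  exact dim_eq inj

instance : IsLocalHom (algebraMap S (ring S a b)) := by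
  constructor
  intro x hx
  rw [isUnit_iff] at hx
  simpa using hx

/-- the residue field does not change -/
theorem residue : Function.Bijective (ResidueField.map (algebraMap S (ring S a b))) := by
  refine ⟨RingHom.injective _, fun y => ?_⟩
  obtain ⟨z, rfl⟩ := residue_surjective y
  refine ⟨IsLocalRing.residue S z.1.re, ?_⟩
  rw [ResidueField.map_residue, ← sub_eq_zero, ← map_sub, residue_eq_zero_iff, mem_max]
  simp

/-- the ring is a domain if `S` is an integrally closed domain -/
theorem dom [IsDomain S] [IsIntegrallyClosed S] (h5 : ∀ r : S, IsUnit (r * r - b * r - a)) :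
    IsDomain (ring S a b) := by
  have hz : ∀ x y : S, x * x + b * x * y - a * y * y = 0 → x = 0 ∧ y = 0 := by
    intro x y hxy
    by_cases hy : y = 0
    · subst hy
      refine ⟨?_, rfl⟩
      simpa using hxy
    · exfalso
      have hyF : (algebraMap S (FractionRing S) y) ≠ 0 := by
        simpa using hy
      have e2 : algebraMap S (FractionRing S) (x * x + b * x * y - a * y * y) = 0 := by
        rw [hxy, map_zero]
      simp only [map_sub, map_add, map_mul] at e2
      obtain ⟨r, hr⟩ : ∃ r : FractionRing S,
          r * algebraMap S (FractionRing S) y = -(algebraMap S (FractionRing S) x) :=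
        ⟨-(algebraMap S (FractionRing S) x) / algebraMap S (FractionRing S) y,
          div_mul_cancel₀ _ hyF⟩
      have e1 : r * r - algebraMap S (FractionRing S) b * r - algebraMap S (FractionRing S) a = 0 := by
        have e4 : (r * r - algebraMap S (FractionRing S) b * r - algebraMap S (FractionRing S) a) *
            (algebraMap S (FractionRing S) y * algebraMap S (FractionRing S) y) = 0 := by
          linear_combination e2 + (r * algebraMap S (FractionRing S) y -
            algebraMap S (FractionRing S) x - algebraMap S (FractionRing S) b *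
              algebraMap S (FractionRing S) y) * hr
        exact (mul_eq_zero.1 e4).resolve_right (mul_ne_zero hyF hyF)
      have hint : IsIntegral S r := by
        refine ⟨Polynomial.X ^ 2 - (Polynomial.C b * Polynomial.X + Polynomial.C a), ?_, ?_⟩
        · exact Polynomial.monic_X_pow_sub (lt_of_le_of_lt Polynomial.degree_linear_le (by norm_num))
        · simp only [Polynomial.eval₂_sub, Polynomial.eval₂_pow, Polynomial.eval₂_X,
            Polynomial.eval₂_add, Polynomial.eval₂_mul, Polynomial.eval₂_C]
          linear_combination e1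
      obtain ⟨s, hs⟩ := IsIntegrallyClosed.isIntegral_iff.1 hint
      have e3 : s * s - b * s - a = 0 := by
        apply IsFractionRing.injective S (FractionRing S)
        rw [map_zero, ← e1, ← hs]
        simp
      have h6 := h5 s
      rw [e3] at h6
      exact not_isUnit_zero h6
  have hnz : NoZeroDivisors (ring S a b) := by
    constructor
    intro z w hzw
    have h1 : QuadraticAlgebra.norm (z.1 * w.1) = 0 := by
      have h2 : z.1 * w.1 = 0 := congrArg Subtype.val hzw
      rw [h2, QuadraticAlgebra.norm_zero]
    rw [map_mul] at h1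
    rcases mul_eq_zero.1 h1 with h2 | h2
    · left
      rw [QuadraticAlgebra.norm_def] at h2
      have h3 := hz z.1.re z.1.im (by linear_combination h2)
      apply Subtype.ext
      apply QuadraticAlgebra.ext
      · simpa using h3.1
      · simpa using h3.2
    · right
      rw [QuadraticAlgebra.norm_def] at h2
      have h3 := hz w.1.re w.1.im (by linear_combination h2)
      apply Subtype.ext
      apply QuadraticAlgebra.ext
      · simpa using h3.1
      · simpa using h3.2
  exact NoZeroDivisors.to_isDomain _

end ring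

/-- regular local rings with a given residue field -/
theorem exists_poly (k : Type u) [Field k] (n : ℕ) : ∃ (A : Type u) (_ : CommRing A)
    (_ : IsDomain A) (_ : UniqueFactorizationMonoid A) (_ : Algebra k A) (φ : A →ₐ[k] k),
    IsNoetherianRing A ∧ (RingHom.ker φ).height = n := by
  induction n with
  | zero =>
    refine ⟨k, inferInstance, inferInstance, inferInstance, inferInstance, AlgHom.id k k,
      inferInstance, ?_⟩
    have : RingHom.ker (AlgHom.id k k) = ⊥ := by
      ext x; simp [RingHom.mem_ker]
    rw [this]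
    simp
  | succ n ih =>
    obtain ⟨A, _, _, _, _, φ, hN, hh⟩ := ih
    let ψ : Polynomial A →ₐ[k] k := φ.comp ((Polynomial.aeval (R := A) (0 : A)).restrictScalars k)
    have hs : Function.Surjective φ := fun x => ⟨algebraMap k A x, by simp⟩
    refine ⟨Polynomial A, inferInstance, inferInstance, inferInstance, inferInstance, ψ,
      inferInstance, ?_⟩
    have hψs : Function.Surjective ψ := fun x => ⟨algebraMap k _ x, by rw [AlgHom.commutes]; rfl⟩
    have : (RingHom.ker ψ).IsMaximal := RingHom.ker_isMaximal_of_surjective ψ hψs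
    have : (RingHom.ker ψ).LiesOver (RingHom.ker φ) := by
      constructor
      ext x
      simp [RingHom.mem_ker, ψ, Ideal.under, Polynomial.algebraMap_eq]
    rw [Polynomial.height_eq_height_add_one (RingHom.ker φ) (RingHom.ker ψ), hh]
    push_cast
    rfl

theorem exists_local (k : Type u) [Field k] (n : ℕ) (a b : k)
    (hab : ∀ x : k, x * x - b * x - a ≠ 0) : ∃ (S : Type u) (_ : CommRing S)
    (_ : IsLocalRing S) (_ : Algebra k S), IsDomain S ∧ IsIntegrallyClosed S ∧
    IsNoetherianRing S ∧ ringKrullDim S = n ∧
    Function.Bijective ((IsLocalRing.residue S).comp (algebraMap k S)) ∧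
      ∀ r : S, IsUnit (r * r - algebraMap k S b * r - algebraMap k S a) := by
  obtain ⟨A, _, _, _, _, φ, hN, hh⟩ := exists_poly k n
  have hp : (RingHom.ker φ).IsPrime := RingHom.ker_isPrime φ
  let L := Localization.AtPrime (RingHom.ker φ)
  have hle : (RingHom.ker φ).primeCompl ≤ nonZeroDivisors A :=
    Ideal.primeCompl_le_nonZeroDivisors _
  have hD : IsDomain L := IsLocalization.isDomain_of_le_nonZeroDivisors L hle
  have hIC : IsIntegrallyClosed L := isIntegrallyClosed_of_isLocalization (R := A) L
    (RingHom.ker φ).primeCompl hle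
  -- every element is congruent to a constant
  have hred : ∀ r : L, ∃ c : k, r - algebraMap k L c ∈ maximalIdeal L := by
    intro r
    obtain ⟨x, s, hx⟩ := IsLocalization.exists_mk'_eq (RingHom.ker φ).primeCompl r
    have hsφ : φ s ≠ 0 := fun h => s.2 h
    refine ⟨φ x / φ s, ?_⟩
    have h1 : r * algebraMap A L s = algebraMap A L x := by
      rw [← hx]
      exact IsLocalization.mk'_spec _ x s
    have hu : IsUnit (algebraMap A L s) := IsLocalization.map_units _ s
    have h2 : (r - algebraMap k L (φ x / φ s)) * algebraMap A L s =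
        algebraMap A L (x - algebraMap k A (φ x / φ s) * s) := by
      rw [sub_mul, h1, map_sub, map_mul, ← IsScalarTower.algebraMap_apply]
    have h3 : algebraMap A L (x - algebraMap k A (φ x / φ s) * s) ∈ maximalIdeal L := by
      rw [IsLocalization.AtPrime.to_map_mem_maximal_iff L (RingHom.ker φ)]
      rw [RingHom.mem_ker, map_sub, map_mul, AlgHom.commutes]
      have e : algebraMap k k (φ x / φ s) = φ x / φ s := rfl
      rw [e, div_mul_cancel₀ _ hsφ, sub_self]
    rw [← h2] at h3
    by_contra hc
    have h4 : IsUnit (r - algebraMap k L (φ x / φ s)) := by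
      by_contra hc2
      exact hc ((mem_maximalIdeal _).2 hc2)
    exact (mem_maximalIdeal _).1 h3 (h4.mul hu)
  refine ⟨L, inferInstance, inferInstance, inferInstance, hD, hIC,
    IsLocalization.isNoetherianRing (RingHom.ker φ).primeCompl _ hN, ?_, ?_, ?_⟩
  · rw [IsLocalization.AtPrime.ringKrullDim_eq_height (RingHom.ker φ), hh]
    rfl
  · refine ⟨RingHom.injective _, fun y => ?_⟩
    obtain ⟨z, rfl⟩ := residue_surjective y
    obtain ⟨c, hc⟩ := hred z
    refine ⟨c, ?_⟩
    rw [RingHom.comp_apply, eq_comm, ← sub_eq_zero, ← map_sub, residue_eq_zero_iff]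
    exact hc
  · intro r
    obtain ⟨c, hc⟩ := hred r
    by_contra hn
    have h1 : r * r - algebraMap k L b * r - algebraMap k L a ∈ maximalIdeal L :=
      (mem_maximalIdeal _).2 hn
    have h2 : algebraMap k L (c * c - b * c - a) ∈ maximalIdeal L := by
      have e : algebraMap k L (c * c - b * c - a) =
          (r * r - algebraMap k L b * r - algebraMap k L a) -
          (r + algebraMap k L c - algebraMap k L b) * (r - algebraMap k L c) := by
        simp only [map_sub, map_mul]
        ring
      rw [e]
      exact Ideal.sub_mem _ h1 (Ideal.mul_mem_left _ _ hc)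
    exact (mem_maximalIdeal _).1 h2 ((isUnit_iff_ne_zero.2 (hab c)).map _)

end Pool.Agent.KS6_79.IC
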